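import Pool.Agent.Helper15.LP.Defs

set_option autoImplicit false

open Finset
open scoped Classical
open Pool.Agent.Helper15.LR

namespace Pool.Agent.Helper15.LP

lemma VBN_prod {ι κ : Type} [Fintype ι] (w : κ → ℝ) (k : ι) (x : ι → κ) (t : κ) :
    (∏ i, w (Function.update x k t i)) * w (x k) = (∏ i, w (x i)) * w t := by
  have h1 : (fun i => w (Function.update x k t i)) = Function.update (fun i => w (x i)) k (w t) := by
    funext i
    by_cases h : i = k
    · subst h; simp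
    · simp [h]
  rw [h1, Finset.prod_update_of_mem (Finset.mem_univ k)]
  rw [← Finset.mul_prod_erase Finset.univ (fun i => w (x i)) (Finset.mem_univ k)]
  rw [Finset.sdiff_singleton_eq_erase]
  ring

/-- swapping a coordinate with an independent copy -/
noncomputable def VBN_swap {ι κ : Type} (k : ι) : (ι → κ) × κ ≃ (ι → κ) × κ where
  toFun p := (Function.update p.1 k p.2, p.1 k)
  invFun p := (Function.update p.1 k p.2, p.1 k)
  left_inv p := by simp
  right_inv p := by simp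

lemma VBN_resample {ι κ : Type} [Fintype ι] [Fintype κ] (w : κ → ℝ) (hw : ∑ t, w t = 1) (k : ι)
    (F : (ι → κ) → ℝ) :
    ∑ x, (∏ i, w (x i)) * F x =
      ∑ x, (∏ i, w (x i)) * ∑ t, w t * F (Function.update x k t) := by
  have h1 : ∑ x, (∏ i, w (x i)) * ∑ t, w t * F (Function.update x k t) =
      ∑ p : (ι → κ) × κ, ((∏ i, w (p.1 i)) * w p.2) * F (Function.update p.1 k p.2) := by
    rw [Fintype.sum_prod_type]
    refine Finset.sum_congr rfl (fun x _ => ?_)
    rw [Finset.mul_sum]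
    refine Finset.sum_congr rfl (fun t _ => ?_)
    ring
  have h2 : ∑ x, (∏ i, w (x i)) * F x =
      ∑ p : (ι → κ) × κ, ((∏ i, w (p.1 i)) * w p.2) * F p.1 := by
    rw [Fintype.sum_prod_type]
    refine Finset.sum_congr rfl (fun x _ => ?_)
    have : ∑ y, (∏ i, w (x i)) * w y * F x = (∏ i, w (x i)) * F x * ∑ y, w y := by
      rw [Finset.mul_sum]
      exact Finset.sum_congr rfl (fun t _ => by ring)
    rw [this, hw, mul_one]
  rw [h1, h2]
  rw [← Equiv.sum_comp (VBN_swap k)]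
  refine Finset.sum_congr rfl (fun p _ => ?_)
  have : (VBN_swap k p : (ι → κ) × κ) = (Function.update p.1 k p.2, p.1 k) := rfl
  rw [this]
  simp only
  rw [VBN_prod]

lemma VBN_total {ι κ : Type} [Fintype ι] [Fintype κ] (w : κ → ℝ) (hw : ∑ t, w t = 1) :
    ∑ x : ι → κ, ∏ i, w (x i) = 1 := by
  have := Finset.prod_univ_sum (fun _ : ι => (Finset.univ : Finset κ)) (fun _ t => w t)
  rw [Fintype.piFinset_univ] at this
  rw [← this, hw]
  simp

/-- one step -/
lemma VBN_step (a b n u M ρ : ℝ) (p : ℕ) (hp : 1 ≤ p) (hρ0 : 0 ≤ ρ) (hρ1 : ρ ≤ 1)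
    (hM : 0 < M) (hn0 : 0 ≤ n) (hn : n ≤ M) (ha : 0 ≤ a) (hb : b ^ 2 ≤ a * n)
    (hu : a + 9 * p ^ 2 * M ≤ u) :
    ρ * (u + (2 * (1 - ρ) * b + (1 - ρ) ^ 2 * n)) ^ p +
      (1 - ρ) * (u + (2 * (-ρ) * b + (-ρ) ^ 2 * n)) ^ p ≤ (u + 11 * p * (ρ * n)) ^ p := by
  have hpr : (1 : ℝ) ≤ p := by exact_mod_cast hp
  have hu0 : 0 < u := by nlinarith [mul_pos (mul_pos (by linarith : (0:ℝ) < p) (by linarith : (0:ℝ) < p)) hM]
  -- bound for b
  have hbu : 6 * p * |b| ≤ u := by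
    have h1 : (6 * p * |b|) ^ 2 ≤ u ^ 2 := by
      rw [mul_pow, sq_abs]
      have h2 : (6 * (p : ℝ)) ^ 2 * b ^ 2 ≤ (6 * (p : ℝ)) ^ 2 * (a * M) := by
        apply mul_le_mul_of_nonneg_left _ (by positivity)
        exact hb.trans (mul_le_mul_of_nonneg_left hn ha)
      have h3 : (6 * (p : ℝ)) ^ 2 * (a * M) ≤ (a + 9 * p ^ 2 * M) ^ 2 := by
        nlinarith [sq_nonneg (a - 9 * p ^ 2 * M)]
      have h4 : (a + 9 * (p : ℝ) ^ 2 * M) ^ 2 ≤ u ^ 2 := by
        apply pow_le_pow_left₀ (by positivity) hu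
      linarith
    exact abs_le_of_sq_le_sq' h1 hu0.le |>.2
  have key : ∀ ξ : ℝ, |ξ| ≤ 1 → (u + (2 * ξ * b + ξ ^ 2 * n)) ^ p ≤
      u ^ p * (1 + p * ((2 * ξ * b + ξ ^ 2 * n) / u) +
        p ^ 2 * (ξ ^ 2 * (8 * b ^ 2 + 2 * n ^ 2)) / u ^ 2) := by
    intro ξ hξ
    set t := 2 * ξ * b + ξ ^ 2 * n with ht
    have hξ2 : ξ ^ 2 ≤ 1 := by
      rw [← sq_abs]; exact pow_le_one₀ (abs_nonneg _) hξ
    have htabs : |t| ≤ 2 * |b| + M := by
      rw [ht]
      refine (abs_add_le _ _).trans ?_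
      have e1 : |2 * ξ * b| ≤ 2 * |b| := by
        rw [abs_mul, abs_mul, abs_two]
        nlinarith [abs_nonneg b, abs_nonneg ξ]
      have e2 : |ξ ^ 2 * n| ≤ M := by
        rw [abs_of_nonneg (by positivity)]
        nlinarith
      linarith
    have hpt : p * |t| ≤ u := by
      have hpp : (p : ℝ) ≤ p ^ 2 := by nlinarith
      have h5 : (p : ℝ) * M ≤ p ^ 2 * M := mul_le_mul_of_nonneg_right hpp hM.le
      have h6 : (p : ℝ) * |t| ≤ p * (2 * |b| + M) :=
        mul_le_mul_of_nonneg_left htabs (by linarith)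
      have h7 : 9 * ((p : ℝ) ^ 2 * M) ≤ u := by linarith
      linarith
    have hx : |(p : ℝ) * (t / u)| ≤ 1 := by
      rw [abs_mul, abs_div, abs_of_pos hu0, abs_of_nonneg (by linarith : (0:ℝ) ≤ p),
        ← mul_div_assoc, div_le_one hu0]
      exact hpt
    have hx1 : -1 ≤ t / u := by
      have : |t / u| ≤ 1 := by
        rw [abs_div, abs_of_pos hu0, div_le_one hu0]
        nlinarith [abs_nonneg t]
      linarith [(abs_le.mp this).1]
    have h1 : (u + t) ^ p = u ^ p * (1 + t / u) ^ p := by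
      rw [← mul_pow]
      congr 1
      field_simp
    have h2 : (1 + t / u) ^ p ≤ Real.exp (p * (t / u)) := by
      have := Real.add_one_le_exp (t / u)
      calc (1 + t / u) ^ p ≤ (Real.exp (t / u)) ^ p :=
            pow_le_pow_left₀ (by linarith) (by linarith) p
        _ = Real.exp (p * (t / u)) := by rw [← Real.exp_nat_mul]
    have h3 : Real.exp (p * (t / u)) ≤ 1 + p * (t / u) + (p * (t / u)) ^ 2 := by
      have := Real.abs_exp_sub_one_sub_id_le hx
      have := (abs_le.mp this).2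
      linarith
    have h4 : (p * (t / u)) ^ 2 ≤ p ^ 2 * (ξ ^ 2 * (8 * b ^ 2 + 2 * n ^ 2)) / u ^ 2 := by
      rw [mul_pow, div_pow, ← mul_div_assoc]
      apply div_le_div_of_nonneg_right _ (by positivity)
      apply mul_le_mul_of_nonneg_left _ (by positivity)
      have : t ^ 2 ≤ 8 * (ξ * b) ^ 2 + 2 * (ξ ^ 2 * n) ^ 2 := by
        rw [ht]
        nlinarith [sq_nonneg (2 * ξ * b - ξ ^ 2 * n)]
      have e : (ξ ^ 2 * n) ^ 2 ≤ ξ ^ 2 * n ^ 2 := by
        rw [mul_pow]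
        apply mul_le_mul_of_nonneg_right _ (by positivity)
        nlinarith [sq_nonneg ξ]
      nlinarith
    rw [h1]
    apply mul_le_mul_of_nonneg_left _ (pow_nonneg hu0.le p)
    linarith
  have k1 := key (1 - ρ) (by rw [abs_le]; constructor <;> linarith)
  have k2 := key (-ρ) (by rw [abs_le]; constructor <;> linarith)
  set v := ρ * n with hv
  have hv0 : 0 ≤ v := mul_nonneg hρ0 hn0
  have hsum : ρ * (u + (2 * (1 - ρ) * b + (1 - ρ) ^ 2 * n)) ^ p +
      (1 - ρ) * (u + (2 * (-ρ) * b + (-ρ) ^ 2 * n)) ^ p ≤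
      u ^ p * (1 + p * ((ρ * (1 - ρ) * n) / u) +
        p ^ 2 * (ρ * (1 - ρ) * (8 * b ^ 2 + 2 * n ^ 2)) / u ^ 2) := by
    have a1 := mul_le_mul_of_nonneg_left k1 hρ0
    have a2 := mul_le_mul_of_nonneg_left k2 (by linarith : (0:ℝ) ≤ 1 - ρ)
    refine (add_le_add a1 a2).trans (le_of_eq ?_)
    ring
  refine hsum.trans ?_
  have hb2 : 8 * b ^ 2 + 2 * n ^ 2 ≤ 9 * u * n := by
    have e1 : 8 * b ^ 2 ≤ 8 * (a * n) := by linarith
    have e2 : 2 * n ^ 2 ≤ 2 * M * n := by nlinarith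
    have e3 : (1 : ℝ) ≤ (p : ℝ) ^ 2 := one_le_pow₀ hpr
    have e4 : 8 * a + 2 * M ≤ 9 * u := by nlinarith
    nlinarith
  have hρρ : 0 ≤ ρ * (1 - ρ) := mul_nonneg hρ0 (by linarith)
  have hun : 0 ≤ 9 * u * n := mul_nonneg (by linarith) hn0
  have hu2 : 0 ≤ u ^ 2 := sq_nonneg u
  have hp2' : 0 ≤ (p : ℝ) ^ 2 := sq_nonneg _
  have hρρ' : ρ * (1 - ρ) ≤ ρ := by nlinarith
  have t1 : p * ((ρ * (1 - ρ) * n) / u) ≤ p * (v / u) := by
    apply mul_le_mul_of_nonneg_left _ (by linarith)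
    apply div_le_div_of_nonneg_right _ hu0.le
    rw [hv]
    exact mul_le_mul_of_nonneg_right hρρ' hn0
  have t2 : p ^ 2 * (ρ * (1 - ρ) * (8 * b ^ 2 + 2 * n ^ 2)) / u ^ 2 ≤ 9 * p ^ 2 * (v / u) := by
    have : ρ * (1 - ρ) * (8 * b ^ 2 + 2 * n ^ 2) ≤ ρ * (9 * u * n) := by
      calc ρ * (1 - ρ) * (8 * b ^ 2 + 2 * n ^ 2) ≤ ρ * (1 - ρ) * (9 * u * n) :=
            mul_le_mul_of_nonneg_left hb2 hρρ
        _ ≤ ρ * (9 * u * n) := mul_le_mul_of_nonneg_right hρρ' hun
    have h5 : p ^ 2 * (ρ * (1 - ρ) * (8 * b ^ 2 + 2 * n ^ 2)) / u ^ 2 ≤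
        p ^ 2 * (ρ * (9 * u * n)) / u ^ 2 := by
      apply div_le_div_of_nonneg_right _ hu2
      apply mul_le_mul_of_nonneg_left this hp2'
    refine h5.trans (le_of_eq ?_)
    rw [hv]
    field_simp
  have hvu : 0 ≤ v / u := div_nonneg hv0 hu0.le
  have hbern : 1 + (p : ℝ) * (11 * p * (v / u)) ≤ (1 + 11 * p * (v / u)) ^ p :=
    one_add_mul_le_pow (by
      have : 0 ≤ 11 * (p : ℝ) * (v / u) := mul_nonneg (by linarith) hvu
      linarith) p
  have hfin : u ^ p * (1 + 11 * p * (v / u)) ^ p = (u + 11 * p * v) ^ p := by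
    rw [← mul_pow]
    congr 1
    field_simp
  rw [← hfin]
  apply mul_le_mul_of_nonneg_left _ (pow_nonneg hu0.le p)
  refine le_trans ?_ hbern
  have hp2 : (p : ℝ) ≤ p ^ 2 := by nlinarith
  nlinarith


lemma VBN_ind {B V : Type} [Fintype B] [Fintype V] (c : B → V → ℝ) (ρ M : ℝ) (p : ℕ)
    (hp : 1 ≤ p) (hρ0 : 0 ≤ ρ) (hρ1 : ρ ≤ 1) (hM : 0 < M) (hc : ∀ b, ∑ v, c b v ^ 2 ≤ M)
    (T : Finset B) : ∀ B0 : ℝ, 9 * p ^ 2 * M ≤ B0 →
    ∑ x : B → Bool, (∏ i, (if x i = true then ρ else 1 - ρ)) *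
      (∑ v, (∑ b ∈ T, ((if x b = true then 1 else 0) - ρ) * c b v) ^ 2 + B0) ^ p ≤
      (B0 + 11 * p * (ρ * ∑ b ∈ T, ∑ v, c b v ^ 2)) ^ p := by
  have hw : ∑ t : Bool, (if t = true then ρ else 1 - ρ) = 1 := by
    rw [Fintype.sum_bool]; simp
  have hw0 : ∀ t : Bool, 0 ≤ (if t = true then ρ else 1 - ρ) := by
    intro t; split_ifs <;> linarith
  induction T using Finset.induction_on with
  | empty =>
    intro B0 _
    have := VBN_total (ι := B) (fun t : Bool => if t = true then ρ else 1 - ρ) hw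
    simp only [Finset.sum_empty, ne_eq, OfNat.ofNat_ne_zero, not_false_eq_true, zero_pow,
      Finset.sum_const_zero, zero_add, mul_zero, add_zero]
    rw [← Finset.sum_mul, this, one_mul]
  | insert b T hb ih =>
    intro B0 hB0
    set n := ∑ v, c b v ^ 2 with hn
    have hn0 : 0 ≤ n := Finset.sum_nonneg (fun v _ => sq_nonneg _)
    have hpr : (0 : ℝ) ≤ p := by positivity
    rw [VBN_resample (fun t : Bool => if t = true then ρ else 1 - ρ) hw b
      (fun x => (∑ v, (∑ b' ∈ insert b T, ((if x b' = true then 1 else 0) - ρ) * c b' v) ^ 2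
        + B0) ^ p)]
    have hstep : ∀ x : B → Bool,
        ∑ t : Bool, (if t = true then ρ else 1 - ρ) *
          (∑ v, (∑ b' ∈ insert b T, ((if Function.update x b t b' = true then 1 else 0) - ρ) *
            c b' v) ^ 2 + B0) ^ p ≤
        (∑ v, (∑ b' ∈ T, ((if x b' = true then 1 else 0) - ρ) * c b' v) ^ 2 +
          (B0 + 11 * p * (ρ * n))) ^ p := by
      intro x
      set z : V → ℝ := fun v => ∑ b' ∈ T, ((if x b' = true then 1 else 0) - ρ) * c b' v with hz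
      have hZ : ∀ (t : Bool) (v : V),
          ∑ b' ∈ insert b T, ((if Function.update x b t b' = true then 1 else 0) - ρ) * c b' v =
          z v + ((if t = true then 1 else 0) - ρ) * c b v := by
        intro t v
        rw [Finset.sum_insert hb, Function.update_self, add_comm]
        congr 1
        refine Finset.sum_congr rfl (fun b' hb' => ?_)
        have : b' ≠ b := fun h => hb (h ▸ hb')
        rw [Function.update_of_ne this]
      have hq : ∀ ξ : ℝ, ∑ v, (z v + ξ * c b v) ^ 2 + B0 =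
          (∑ v, z v ^ 2 + B0) + (2 * ξ * (∑ v, z v * c b v) + ξ ^ 2 * n) := by
        intro ξ
        rw [hn, Finset.mul_sum, Finset.mul_sum]
        have : ∑ v, (z v + ξ * c b v) ^ 2 =
            ∑ v, z v ^ 2 + (∑ v, 2 * ξ * (z v * c b v) + ∑ v, ξ ^ 2 * c b v ^ 2) := by
          rw [← Finset.sum_add_distrib, ← Finset.sum_add_distrib]
          exact Finset.sum_congr rfl (fun v _ => by ring)
        rw [this]
        ring
      have hCS : (∑ v, z v * c b v) ^ 2 ≤ (∑ v, z v ^ 2) * n :=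
        Finset.sum_mul_sq_le_sq_mul_sq _ _ _
      have hst := VBN_step (∑ v, z v ^ 2) (∑ v, z v * c b v) n (∑ v, z v ^ 2 + B0) M ρ p hp hρ0
        hρ1 hM hn0 (hc b) (Finset.sum_nonneg (fun v _ => sq_nonneg _)) hCS (by linarith)
      rw [Fintype.sum_bool]
      simp only [hZ, if_true, Bool.false_eq_true, if_false, zero_sub]
      rw [hq (1 - ρ), hq (-ρ)]
      refine hst.trans (le_of_eq ?_)
      congr 1
      ring
    have hprod : ∀ x : B → Bool, 0 ≤ ∏ i, (if x i = true then ρ else 1 - ρ) :=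
      fun x => Finset.prod_nonneg (fun i _ => hw0 _)
    refine (Finset.sum_le_sum (fun x _ => mul_le_mul_of_nonneg_left (hstep x) (hprod x))).trans ?_
    have h11 : 0 ≤ 11 * (p : ℝ) * (ρ * n) := by positivity
    refine (ih (B0 + 11 * p * (ρ * n)) (by linarith)).trans (le_of_eq ?_)
    rw [Finset.sum_insert hb]
    congr 1
    ring

theorem lp_VBN : VecBern_stmt := by
  intro B V _ _ c ρ M S p hp hρ0 hρ1 hM hc hS
  have hpr : (1 : ℝ) ≤ p := by exact_mod_cast hp
  have hw0 : ∀ t : Bool, 0 ≤ (if t = true then ρ else 1 - ρ) := by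
    intro t; split_ifs <;> linarith
  have hS0 : 0 ≤ S := le_trans (Finset.sum_nonneg (fun b _ =>
    Finset.sum_nonneg (fun v _ => sq_nonneg _))) hS
  set Λ : ℝ := 9 * p ^ 2 * M + 11 * p * ρ * S with hΛ
  have hΛ0 : 0 < Λ := by
    have h1 : 0 < 9 * (p : ℝ) ^ 2 * M := by positivity
    have h2 : 0 ≤ 11 * (p : ℝ) * ρ * S := by positivity
    linarith
  have hmain := VBN_ind c ρ M p hp hρ0 hρ1 hM hc Finset.univ (9 * p ^ 2 * M) le_rfl
  have hle : (9 * p ^ 2 * M + 11 * p * (ρ * ∑ b, ∑ v, c b v ^ 2)) ^ p ≤ Λ ^ p := by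
    apply pow_le_pow_left₀
    · have h1 : 0 < 9 * (p : ℝ) ^ 2 * M := by positivity
      have h2 : 0 ≤ ∑ b, ∑ v, c b v ^ 2 := Finset.sum_nonneg (fun b _ =>
        Finset.sum_nonneg (fun v _ => sq_nonneg _))
      have h3 : 0 ≤ 11 * (p : ℝ) * (ρ * ∑ b, ∑ v, c b v ^ 2) := by positivity
      linarith
    · have h4 : ρ * ∑ b, ∑ v, c b v ^ 2 ≤ ρ * S := mul_le_mul_of_nonneg_left hS hρ0
      have h5 : 11 * (p : ℝ) * (ρ * ∑ b, ∑ v, c b v ^ 2) ≤ 11 * p * (ρ * S) :=
        mul_le_mul_of_nonneg_left h4 (by positivity)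
      rw [hΛ]
      linarith
  have h8 : 0 < (8 * Λ) ^ p := by positivity
  have hmarkov : PP (fun (_ : B) (t : Bool) => if t = true then ρ else 1 - ρ)
        {x | 8 * Λ < ∑ v, (∑ b, ((if x b = true then 1 else 0) - ρ) * c b v) ^ 2} * (8 * Λ) ^ p ≤
      ∑ x : B → Bool, (∏ i, (if x i = true then ρ else 1 - ρ)) *
      (∑ v, (∑ b, ((if x b = true then 1 else 0) - ρ) * c b v) ^ 2 + 9 * p ^ 2 * M) ^ p := by
    unfold PP
    rw [Finset.sum_mul]
    refine Finset.sum_le_sum (fun x _ => ?_)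
    have hprod : 0 ≤ ∏ i, (if x i = true then ρ else 1 - ρ) :=
      Finset.prod_nonneg (fun i _ => hw0 _)
    have hnn : 0 ≤ ∑ v, (∑ b, ((if x b = true then 1 else 0) - ρ) * c b v) ^ 2 :=
      Finset.sum_nonneg (fun v _ => sq_nonneg _)
    have hpM : 0 ≤ 9 * (p : ℝ) ^ 2 * M := by positivity
    split_ifs with hx
    · apply mul_le_mul_of_nonneg_left _ hprod
      apply pow_le_pow_left₀ (by positivity)
      have hx' : 8 * Λ < ∑ v, (∑ b, ((if x b = true then 1 else 0) - ρ) * c b v) ^ 2 := hx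
      linarith
    · rw [zero_mul]
      exact mul_nonneg hprod (pow_nonneg (by linarith) p)
  have hfin : PP (fun (_ : B) (t : Bool) => if t = true then ρ else 1 - ρ)
        {x | 8 * Λ < ∑ v, (∑ b, ((if x b = true then 1 else 0) - ρ) * c b v) ^ 2} * (8 * Λ) ^ p ≤
      Λ ^ p := hmarkov.trans (hmain.trans hle)
  have h8' : (8 * Λ) ^ p = 8 ^ p * Λ ^ p := mul_pow _ _ _
  rw [h8', ← mul_assoc] at hfin
  have hfin2 : PP (fun (_ : B) (t : Bool) => if t = true then ρ else 1 - ρ)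
        {x | 8 * Λ < ∑ v, (∑ b, ((if x b = true then 1 else 0) - ρ) * c b v) ^ 2} * 8 ^ p ≤ 1 := by
    have hΛp : 0 < Λ ^ p := by positivity
    by_contra hcon
    push Not at hcon
    have := mul_lt_mul_of_pos_right hcon hΛp
    linarith
  have hexp : Real.exp (2 * p) ≤ 8 ^ p := by
    have h1 : Real.exp 2 ≤ 8 := by
      have h := Real.exp_one_lt_d9.le
      have e : Real.exp 2 = Real.exp 1 ^ 2 := by
        rw [← Real.exp_nat_mul]; norm_num
      rw [e]
      have h0 : 0 ≤ Real.exp 1 := (Real.exp_pos 1).le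
      nlinarith
    have h2 : Real.exp (2 * p) = Real.exp 2 ^ p := by
      rw [← Real.exp_nat_mul]; ring_nf
    rw [h2]
    exact pow_le_pow_left₀ (Real.exp_pos 2).le h1 p
  have hPPnn : 0 ≤ PP (fun (_ : B) (t : Bool) => if t = true then ρ else 1 - ρ)
        {x | 8 * Λ < ∑ v, (∑ b, ((if x b = true then 1 else 0) - ρ) * c b v) ^ 2} := by
    unfold PP
    refine Finset.sum_nonneg (fun x _ => ?_)
    split_ifs
    · exact Finset.prod_nonneg (fun i _ => hw0 _)
    · exact le_rfl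
  have hgoal : PP (fun (_ : B) (t : Bool) => if t = true then ρ else 1 - ρ)
        {x | 8 * Λ < ∑ v, (∑ b, ((if x b = true then 1 else 0) - ρ) * c b v) ^ 2} *
        Real.exp (2 * p) ≤ 1 :=
    (mul_le_mul_of_nonneg_left hexp hPPnn).trans hfin2
  rw [Real.exp_neg]
  rw [← one_div, le_div_iff₀ (Real.exp_pos _)]
  exact hgoal

end Pool.Agent.Helper15.LP
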